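import Pool.Agent.H3.PS.Stm
import Pool.Graph.R_pool_sql_team_seeded_9f66d723.W5h98.Pol.Stg

/-!
# Crew PS (MP_40d30a_pr): part STG, the library stage theorem with an explicit constant
-/

set_option autoImplicit false

namespace Pool.Agent.H36.PS

open MeasureTheory ProbabilityTheory Filter Topology
open Pool.Agent.H3.PS
open Pool.Agent.W5h98.Pol

theorem STG : S_STG := by
  classical
  intro d κ hκ ε δ hδ0 hδε hδa hδc
  have hε : 0 < ε := lt_of_lt_of_le hδ0 hδε
  rcases κ with _ | κ
  · intro ν _ _ N _ S _ b _ hp F hR _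
    refine le_trans (measureReal_mono ?_ (measure_ne_top _ _)) ((hp 0).trans hδε)
    intro ω hω
    by_contra hcon
    exact hω (hR ω 0 hcon ⟨∅, le_rfl, by simp⟩)
  · obtain ⟨δ1, hδ1, IH⟩ := stage κ (by omega : κ + 1 ≤ d) (ε / 2) (by positivity)
    have hδb : (16 : ℝ) ^ d * δ * 2 ≤ ε / 2 := by linarith
    intro ν _ hν N hN S hS b hb hp F hR hF
    have hlam0 := lam_nonneg ν (d := d) (κ + 1) S
    have hlam1 := lam_lt_one ν (d := d) S (hν (κ + 1) (by omega) le_rfl)
    obtain ⟨n, hn⟩ : ∃ n : ℕ, δ / 2 ^ n +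
        (pats d κ).card * (((10 : ℝ) ^ d) ^ n * lam ν d (κ + 1) S ^ 2 ^ n) ≤ δ1 := by
      have t1 : Tendsto (fun n : ℕ => δ / 2 ^ n) atTop (𝓝 0) := by
        have := tendsto_pow_atTop_nhds_zero_of_lt_one (r := (1 / 2 : ℝ)) (by norm_num) (by norm_num)
        have h2 := this.const_mul δ
        rw [mul_zero] at h2
        refine h2.congr fun n => ?_
        rw [div_pow, one_pow]; ring
      have t2 := (decay hlam0 hlam1 d).const_mul ((pats d κ).card : ℝ)
      rw [mul_zero] at t2
      have t3 := t1.add t2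
      rw [add_zero] at t3
      exact ((t3.eventually (eventually_le_nhds hδ1)).exists)
    -- the next stage
    have hbad := badn_prob ν hS hb hδ0.le hδa hp
    have hp' : ∀ z, (Pr d ν).real {ω | bad' κ (b ω) (sd (κ + 1) S ω) n z} ≤ δ1 := by
      intro z
      have hsub : {ω | bad' κ (b ω) (sd (κ + 1) S ω) n z} ⊆ {ω | badn (b ω) n z} ∪
          ⋃ τ ∈ pats d κ, {ω | ¬ badn (b ω) n z ∧ ¬ RS (b ω) (sd (κ + 1) S ω) τ n z {z}} := by
        intro ω hω
        by_cases h1 : badn (b ω) n z
        · exact Or.inl h1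
        · rcases hω with h2 | ⟨τ, hτ, h2⟩
          · exact absurd h2 h1
          · exact Or.inr (Set.mem_biUnion hτ ⟨h1, h2⟩)
      calc (Pr d ν).real {ω | bad' κ (b ω) (sd (κ + 1) S ω) n z}
          ≤ _ := measureReal_mono hsub (measure_ne_top _ _)
        _ ≤ _ := measureReal_union_le _ _
        _ ≤ δ / 2 ^ n + ∑ τ ∈ pats d κ,
            (Pr d ν).real {ω | ¬ badn (b ω) n z ∧ ¬ RS (b ω) (sd (κ + 1) S ω) τ n z {z}} :=
            add_le_add (hbad n z) (measureReal_biUnion_finset_le _ _)
        _ ≤ δ / 2 ^ n + ∑ _τ ∈ pats d κ, ((10 : ℝ) ^ d) ^ n * lam ν d (κ + 1) S ^ 2 ^ n := by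
            gcongr with τ hτ
            exact rs_prob ν hκ hS hb (Finset.mem_filter.1 hτ).2 n z
        _ ≤ δ1 := by rw [Finset.sum_const, nsmul_eq_mul]; exact hn
    have key := IH ν (fun j h1 h2 => hν j h1 (by omega)) N (by omega) (S * 10 ^ n) (pos_pow hS n)
      (fun ω z => bad' κ (b ω) (sd (κ + 1) S ω) n z) (bad'_dep (by omega) hS hb n) hp'
      (fun ω z => fil (b ω) (F ω) n z)
      (fun ω => rule' hκ (hR ω) (fun x h1 h2 => hF ω x h1 ⟨κ + 1, by omega, le_rfl, h2⟩) n) ?_
    · -- conclusion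
      have hsub : {ω | ¬ F ω 0} ⊆ {ω | ¬ fil (b ω) (F ω) n 0} ∪
          ⋃ m ∈ Finset.range n, ⋃ u ∈ blkp (0 : V d), {ω | badn (b ω) m u} := by
        intro ω hω
        by_contra hcon
        simp only [Set.mem_union, Set.mem_iUnion, not_or, not_exists] at hcon
        apply hω
        apply fil_origin (by omega) n
        · by_contra h
          exact hcon.1 h
        · intro m hm u hu hbb
          exact hcon.2 m (Finset.mem_range.2 hm) u (mem_blkp.2 hu) hbb
      calc (Pr d ν).real {ω | ¬ F ω 0}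
          ≤ _ := measureReal_mono hsub (measure_ne_top _ _)
        _ ≤ _ := measureReal_union_le _ _
        _ ≤ ε / 2 + ∑ m ∈ Finset.range n, (Pr d ν).real (⋃ u ∈ blkp (0 : V d), {ω | badn (b ω) m u}) :=
            add_le_add key (measureReal_biUnion_finset_le _ _)
        _ ≤ ε / 2 + ∑ m ∈ Finset.range n, (16 ^ d * δ) * (1 / 2 ^ m) := by
            gcongr with m hm
            refine le_trans (measureReal_biUnion_finset_le _ _) ?_
            refine le_trans (Finset.sum_le_sum fun u _ => hbad m u) ?_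
            rw [Finset.sum_const, card_blkp, nsmul_eq_mul]
            push_cast
            apply le_of_eq
            ring
        _ = ε / 2 + (16 ^ d * δ) * ∑ m ∈ Finset.range n, (1 : ℝ) / 2 ^ m := by
            rw [Finset.mul_sum]
        _ ≤ ε / 2 + (16 ^ d * δ) * 2 := by
            gcongr
            exact sum_half n
        _ ≤ ε := by linarith
    · rintro ω z hz ⟨j, hj1, hj2, hsd⟩
      apply fil_of_cells n z (fun h => hz (Or.inl h))
      intro x hx hbx
      apply hF ω x hbx
      refine ⟨j, hj1, by omega, ?_⟩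
      intro y hy
      apply hsd
      rw [mem_bxS] at hy ⊢
      intro i
      have h1 := hy i
      have h2 := hx i
      have e1 : S * 10 ^ n * z i = S * (10 ^ n * z i) := by ring
      have a1 : S * (10 ^ n * z i) ≤ S * x i := mul_le_mul_of_nonneg_left h2.1 (by omega)
      have a2 : S * (x i + 1) ≤ S * (10 ^ n * z i + 10 ^ n) :=
        mul_le_mul_of_nonneg_left (by linarith [h2.2]) (by omega)
      rw [e1]
      constructor <;> linarith [h1.1, h1.2]

end Pool.Agent.H36.PS
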